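import Pool.Agent.Helper68.CB.MAXI

/-! Module INTER of the complex Banach conjecture project. -/

set_option autoImplicit false

namespace Pool.Agent.Helper83.CB

/-- orthogonal complements in a Hilbertian norm (Jordan - von Neumann) -/
theorem INTER_orth (V : Type*) [AddCommGroup V] [Module ℂ V] [FiniteDimensional ℂ V] (N : V → ℝ)
    (hN : IsNorm N)
    (hp : ∀ a b, N (a + b) ^ 2 + N (a - b) ^ 2 = 2 * (N a ^ 2 + N b ^ 2)) (A : Submodule ℂ V) :
    ∃ A' : Submodule ℂ V, A ⊓ A' = ⊥ ∧ A ⊔ A' = ⊤ ∧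
      ∀ a ∈ A, ∀ b ∈ A', N (a + b) ^ 2 = N a ^ 2 + N b ^ 2 := by
  classical
  let G : AddGroupNorm V :=
    { toFun := N
      map_zero' := MAXI_zero hN
      add_le' := hN.add
      neg' := MAXI_neg hN
      eq_zero_of_map_eq_zero' := by
        intro x hx
        by_contra hne
        exact (hN.pos x hne).ne' hx }
  letI i1 : NormedAddCommGroup V := G.toNormedAddCommGroup
  have hnorm : ∀ x : V, ‖x‖ = N x := fun x => rfl
  letI i2 : NormedSpace ℂ V :=
    { norm_smul_le := fun c x => by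
        rw [hnorm, hnorm, hN.smul] }
  letI i3 : InnerProductSpace ℂ V := InnerProductSpace.ofNorm ℂ (by
    intro x y
    rw [hnorm, hnorm, hnorm, hnorm]
    have := hp x y
    linarith)
  haveI : FiniteDimensional ℂ A := inferInstance
  haveI : A.HasOrthogonalProjection := inferInstance
  refine ⟨Aᗮ, ?_, ?_, ?_⟩
  · exact Submodule.inf_orthogonal_eq_bot A
  · exact Submodule.sup_orthogonal_of_hasOrthogonalProjection
  · intro a ha b hb
    have h0 : inner ℂ a b = 0 := (Submodule.mem_orthogonal A b).mp hb a ha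
    have := norm_add_sq_eq_norm_sq_add_norm_sq_of_inner_eq_zero a b h0
    rw [hnorm, hnorm, hnorm] at this
    linarith [this]

theorem st_INTER : ST_INTER := by
  intro m N hN H W C P hW hPH
  -- the norm on `W`
  obtain ⟨A', hA1, hA2, hA3⟩ := INTER_orth W (fun w => N (w : E m))
    ⟨fun x hx => hN.pos _ (by simpa using hx), fun c x => by simpa using hN.smul c x,
      fun x y => by simpa using hN.add (x : E m) y⟩
    (fun a b => by simpa using hW.hilb a a.2 b b.2) (P.comap W.subtype)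
  set B := A'.map W.subtype with hB
  have hBW : B ≤ W := by
    rintro x ⟨y, -, rfl⟩
    exact y.2
  have hpy : ∀ a ∈ W ⊓ P, ∀ b ∈ B, N (a + b) ^ 2 = N a ^ 2 + N b ^ 2 := by
    rintro a ha b ⟨b', hb', rfl⟩
    exact hA3 ⟨a, ha.1⟩ ha.2 b' hb'
  have hdis : ∀ x ∈ W ⊓ P, x ∈ B → x = 0 := by
    rintro x hx ⟨y, hy, rfl⟩
    have : y ∈ P.comap W.subtype ⊓ A' := ⟨hx.2, hy⟩
    rw [hA1, Submodule.mem_bot] at this
    rw [this]; simp
  have hdec : ∀ w ∈ W, ∃ a ∈ W ⊓ P, ∃ b ∈ B, w = a + b := by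
    intro w hw
    have : (⟨w, hw⟩ : W) ∈ P.comap W.subtype ⊔ A' := by rw [hA2]; trivial
    obtain ⟨a, ha, b, hb, hab⟩ := Submodule.mem_sup.mp this
    refine ⟨a, ⟨a.2, ha⟩, b, ⟨b, hb, rfl⟩, ?_⟩
    have := congrArg Subtype.val hab
    simpa using this.symm
  refine ⟨P ⊓ (B ⊔ C), ?_, ?_, ?_, ?_⟩
  · rw [eq_bot_iff]
    rintro x ⟨hx, -, hx'⟩
    obtain ⟨b, hb, c, hc, hbc⟩ := Submodule.mem_sup.mp hx'
    have hcW : c ∈ W ⊓ C := by
      refine ⟨?_, hc⟩
      have : c = x - b := by rw [← hbc]; abel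
      rw [this]
      exact W.sub_mem hx.1 (hBW hb)
    rw [hW.inf, Submodule.mem_bot] at hcW
    rw [hcW, add_zero] at hbc
    rw [Submodule.mem_bot]
    exact hdis x hx (hbc ▸ hb)
  · apply le_antisymm (sup_le inf_le_right inf_le_left)
    intro p hp
    have hpH := hPH hp
    rw [← hW.sup] at hpH
    obtain ⟨w, hw, c, hc, hwc⟩ := Submodule.mem_sup.mp hpH
    obtain ⟨a, ha, b, hb, hab⟩ := hdec w hw
    refine Submodule.mem_sup.mpr ⟨a, ha, b + c, ⟨?_, Submodule.add_mem_sup hb hc⟩, ?_⟩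
    · have : b + c = p - a := by rw [← hwc, hab]; abel
      rw [this]
      exact P.sub_mem hp ha.2
    · rw [← hwc, hab]; abel
  · exact fun a ha b hb => hW.hilb a ha.1 b hb.1
  · rintro a ha a' ha' x ⟨-, hx⟩ haa
    obtain ⟨b, hb, c, hc, rfl⟩ := Submodule.mem_sup.mp hx
    rw [← add_assoc, ← add_assoc]
    apply hW.rot _ (W.add_mem ha.1 (hBW hb)) _ (W.add_mem ha'.1 (hBW hb)) c hc
    apply MAXI_sq hN
    rw [hpy a ha b hb, hpy a' ha' b hb, haa]

end Pool.Agent.Helper83.CB
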