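import Pool.Agent.Helper83.CB.Defs

/-! Module MAXI of the complex Banach conjecture project. -/

set_option autoImplicit false

namespace Pool.Agent.Helper83.CB

theorem MAXI_zero {V : Type*} [AddCommGroup V] [Module ℂ V] {N : V → ℝ} (hN : IsNorm N) :
    N 0 = 0 := by
  have := hN.smul 0 (0 : V)
  simpa using this

theorem MAXI_neg {V : Type*} [AddCommGroup V] [Module ℂ V] {N : V → ℝ} (hN : IsNorm N) (x : V) :
    N (-x) = N x := by
  have := hN.smul (-1) x
  simpa using this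

theorem MAXI_nonneg {V : Type*} [AddCommGroup V] [Module ℂ V] {N : V → ℝ} (hN : IsNorm N) (x : V) :
    0 ≤ N x := by
  by_cases h : x = 0
  · rw [h, MAXI_zero hN]
  · exact (hN.pos x h).le

theorem MAXI_sq {V : Type*} [AddCommGroup V] [Module ℂ V] {N : V → ℝ} (hN : IsNorm N) {x y : V}
    (h : N x ^ 2 = N y ^ 2) : N x = N y := by
  have h1 := MAXI_nonneg hN x
  have h2 := MAXI_nonneg hN y
  exact (pow_left_inj₀ h1 h2 (by norm_num)).mp h

/-- the complements of nested rotational subspaces are nested -/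
theorem MAXI_nest {V : Type*} [AddCommGroup V] [Module ℂ V] {N : V → ℝ} (hN : IsNorm N)
    {P A C B D : Submodule ℂ V} (hA : Rot N P A C) (hB : Rot N P B D) (hAB : A ≤ B) : D ≤ C := by
  intro d hd
  have hdP : d ∈ P := by rw [← hB.sup]; exact Submodule.mem_sup_right hd
  rw [← hA.sup] at hdP
  obtain ⟨a, ha, c, hc, hac⟩ := Submodule.mem_sup.mp hdP
  -- `N (d - 2 k a)` is constant
  have key : ∀ k : ℕ, N (d + ((2 * k : ℕ) : ℂ) • a) = N d := by
    intro k
    induction k with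
    | zero => simp
    | succ k ih =>
      -- d + 2k a → reflection at D: d - 2k a = (1 - 2k) a + c → (2k-1) a + c = d + (2k-2) a
      -- we go from `d + 2k a` with `s` : `(1+2k) a + c ↦ -(1+2k) a + c = d - (2k+2) a ↦ d + (2k+2) a`
      have h1 : N ((-((1 : ℂ) + 2 * k)) • a + c) = N (((1 : ℂ) + 2 * k) • a + c) := by
        apply hA.rot _ (A.smul_mem _ ha) _ (A.smul_mem _ ha) _ hc
        rw [neg_smul, MAXI_neg hN]
      have h2 : N ((-((2 : ℂ) * k + 2)) • a + d) = N (((2 : ℂ) * k + 2) • a + d) := by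
        apply hB.rot _ (B.smul_mem _ (hAB ha)) _ (B.smul_mem _ (hAB ha)) _ hd
        rw [neg_smul, MAXI_neg hN]
      have e1 : (-((1 : ℂ) + 2 * k)) • a + c = (-((2 : ℂ) * k + 2)) • a + d := by
        rw [← hac]; module
      have e2 : ((1 : ℂ) + 2 * k) • a + c = d + ((2 * k : ℕ) : ℂ) • a := by
        rw [← hac]; push_cast; module
      have e3 : ((2 : ℂ) * k + 2) • a + d = d + ((2 * (k + 1) : ℕ) : ℂ) • a := by
        push_cast; module
      rw [← e3, ← h2, ← e1, h1, e2, ih]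
  have ha0 : a = 0 := by
    by_contra hne
    have hpos := hN.pos a hne
    obtain ⟨k, hk⟩ := exists_nat_gt (2 * N d / N a)
    have h1 : N (((2 * k : ℕ) : ℂ) • a) ≤ N (d + ((2 * k : ℕ) : ℂ) • a) + N (-d) := by
      have := hN.add (d + ((2 * k : ℕ) : ℂ) • a) (-d)
      simpa using this
    rw [key k, MAXI_neg hN, hN.smul] at h1
    rw [div_lt_iff₀ hpos] at hk
    have h2 : ‖((2 * k : ℕ) : ℂ)‖ = 2 * (k : ℝ) := by
      rw [Complex.norm_natCast]; push_cast; ring
    rw [h2] at h1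
    nlinarith [MAXI_nonneg hN d, mul_nonneg (Nat.cast_nonneg k : (0 : ℝ) ≤ k) hpos.le]
  rw [← hac, ha0, zero_add]
  exact hc

theorem st_MAXI : ST_MAXI := by
  intro m N hN H W C P B hW hPH hCP hWP hB hAB
  obtain ⟨D, hD⟩ := hB
  set A := W ⊓ P with hAdef
  have hWH : W ≤ H := by rw [← hW.sup]; exact le_sup_left
  have hCH : C ≤ H := by rw [← hW.sup]; exact le_sup_right
  have hBP : B ≤ P := by rw [← hD.sup]; exact le_sup_left
  have hDP : D ≤ P := by rw [← hD.sup]; exact le_sup_right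
  -- `A` is rotational in `P` with complement `C`
  have hA : Rot N P A C := by
    refine ⟨?_, ?_, ?_, ?_⟩
    · rw [eq_bot_iff, ← hW.inf]
      exact inf_le_inf_right _ inf_le_left
    · apply le_antisymm (sup_le inf_le_right hCP)
      intro p hp
      have hpH := hPH hp
      rw [← hW.sup] at hpH
      obtain ⟨w, hw, c, hc, hwc⟩ := Submodule.mem_sup.mp hpH
      refine Submodule.mem_sup.mpr ⟨w, ⟨hw, ?_⟩, c, hc, hwc⟩
      have : w = p - c := by rw [← hwc]; abel
      rw [this]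
      exact P.sub_mem hp (hCP hc)
    · exact fun a ha b hb => hW.hilb a ha.1 b hb.1
    · exact fun a ha a' ha' c hc h => hW.rot a ha.1 a' ha'.1 c hc h
  have hDC : D ≤ C := MAXI_nest hN hA hD hAB
  -- decomposition of elements of `W ⊔ B`
  have hdec : ∀ x ∈ W ⊔ B, ∃ w ∈ W, ∃ b ∈ B ⊓ C, x = w + b := by
    intro x hx
    obtain ⟨w, hw, b, hb, hwb⟩ := Submodule.mem_sup.mp hx
    have hbP := hBP hb
    rw [← hA.sup] at hbP
    obtain ⟨a, ha, c, hc, hac⟩ := Submodule.mem_sup.mp hbP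
    refine ⟨w + a, W.add_mem hw ha.1, c, ⟨?_, hc⟩, ?_⟩
    · have : c = b - a := by rw [← hac]; abel
      rw [this]
      exact B.sub_mem hb (hAB ha)
    · rw [← hwb, ← hac]; abel
  -- replace `w` by an element of `A`
  obtain ⟨a0, ha0, ha0ne⟩ := (Submodule.ne_bot_iff _).mp hWP
  have hrep : ∀ w : E m, ∃ a ∈ A, N a = N w := by
    intro w
    refine ⟨((N w / N a0 : ℝ) : ℂ) • a0, A.smul_mem _ ha0, ?_⟩
    rw [hN.smul, Complex.norm_real, Real.norm_of_nonneg (div_nonneg (MAXI_nonneg hN _)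
      (MAXI_nonneg hN _)), div_mul_cancel₀ _ (hN.pos _ ha0ne).ne']
  have hpyA : ∀ a ∈ A, ∀ b ∈ B ⊓ C, N (a + b) ^ 2 = N a ^ 2 + N b ^ 2 := by
    intro a ha b hb
    have h1 := hD.hilb a (hAB ha) b hb.1
    have h2 : N (a + b) = N (-a + b) :=
      hA.rot a ha (-a) (A.neg_mem ha) b hb.2 (MAXI_neg hN a).symm
    have h3 : N (a - b) = N (-a + b) := by
      rw [← MAXI_neg hN (a - b)]; congr 1; abel
    rw [h3, ← h2] at h1
    linarith
  have hpy : ∀ w ∈ W, ∀ b ∈ B ⊓ C, N (w + b) ^ 2 = N w ^ 2 + N b ^ 2 := by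
    intro w hw b hb
    obtain ⟨a, ha, haw⟩ := hrep w
    rw [hW.rot w hw a ha.1 b hb.2 haw.symm, hpyA a ha b hb, haw]
  refine ⟨D, ?_, ?_, ?_, ?_⟩
  · rw [eq_bot_iff]
    rintro x ⟨hx, hxD⟩
    obtain ⟨w, hw, b, hb, rfl⟩ := hdec x hx
    have hwC : w ∈ C := by
      have : w = (w + b) - b := by abel
      rw [this]
      exact C.sub_mem (hDC hxD) hb.2
    have hw0 : w = 0 := by
      have : w ∈ W ⊓ C := ⟨hw, hwC⟩
      rwa [hW.inf, Submodule.mem_bot] at this
    rw [hw0, zero_add] at hxD ⊢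
    have : b ∈ B ⊓ D := ⟨hb.1, hxD⟩
    rwa [hD.inf] at this
  · apply le_antisymm
    · exact sup_le (sup_le hWH (hBP.trans hPH)) (hDP.trans hPH)
    · rw [← hW.sup]
      refine sup_le (le_sup_left.trans le_sup_left) ?_
      refine hCP.trans ?_
      rw [← hD.sup]
      exact sup_le (le_sup_right.trans le_sup_left) le_sup_right
  · intro x hx y hy
    obtain ⟨w, hw, b, hb, rfl⟩ := hdec x hx
    obtain ⟨w', hw', b', hb', rfl⟩ := hdec y hy
    have e1 : w + b + (w' + b') = (w + w') + (b + b') := by abel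
    have e2 : w + b - (w' + b') = (w - w') + (b - b') := by abel
    rw [e1, e2, hpy _ (W.add_mem hw hw') _ ((B ⊓ C).add_mem hb hb'),
      hpy _ (W.sub_mem hw hw') _ ((B ⊓ C).sub_mem hb hb'), hpy w hw b hb, hpy w' hw' b' hb']
    have h1 := hW.hilb w hw w' hw'
    have h2 := hD.hilb b hb.1 b' hb'.1
    linarith
  · intro x hx y hy d hd hxy
    obtain ⟨w, hw, b, hb, rfl⟩ := hdec x hx
    obtain ⟨w', hw', b', hb', rfl⟩ := hdec y hy
    obtain ⟨a, ha, haw⟩ := hrep w
    obtain ⟨a', ha', haw'⟩ := hrep w'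
    have e1 : N (w + b + d) = N (a + b + d) := by
      rw [add_assoc, add_assoc]
      exact hW.rot w hw a ha.1 (b + d) (C.add_mem hb.2 (hDC hd)) haw.symm
    have e2 : N (w' + b' + d) = N (a' + b' + d) := by
      rw [add_assoc, add_assoc]
      exact hW.rot w' hw' a' ha'.1 (b' + d) (C.add_mem hb'.2 (hDC hd)) haw'.symm
    rw [e1, e2]
    apply hD.rot _ (B.add_mem (hAB ha) hb.1) _ (B.add_mem (hAB ha') hb'.1) d hd
    apply MAXI_sq hN
    rw [hpyA a ha b hb, hpyA a' ha' b' hb', haw, haw', ← hpy w hw b hb, ← hpy w' hw' b' hb', hxy]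

end Pool.Agent.Helper83.CB
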